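import Pool.Agent.H741.EL.Stm

/-!
# Project EL (MP_7791e4_an, Q2): the support points of the ellipse
-/

set_option autoImplicit false
open MeasureTheory Metric Set Filter Topology

namespace Pool.Agent.H767.EL
open Pool.Agent.Y508 Pool.Agent.H741.EL

section

variable {a b : ℝ}

theorem hE_sq (a b θ : ℝ) :
    hE a b θ ^ 2 = a ^ 2 * Real.cos θ ^ 2 + b ^ 2 * Real.sin θ ^ 2 := by
  unfold hE
  exact Real.sq_sqrt (by positivity)

theorem hE_pos (hb : 0 < b) (hab : b ≤ a) (θ : ℝ) : 0 < hE a b θ := by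
  unfold hE
  apply Real.sqrt_pos.2
  have ha : 0 < a := hb.trans_le hab
  have h1 := Real.sin_sq_add_cos_sq θ
  rcases eq_or_ne (Real.cos θ) 0 with h | h
  · have h2 : Real.sin θ ^ 2 = 1 := by rw [h] at h1; linarith
    rw [h, h2]
    positivity
  · have : 0 < Real.cos θ ^ 2 := by positivity
    have h3 := sq_nonneg (Real.sin θ)
    nlinarith [mul_pos (pow_pos ha 2) this, mul_nonneg (sq_nonneg b) h3]

/-- first coordinate on the unit circle -/
noncomputable def cc (a b θ : ℝ) : ℝ := a * Real.cos θ / hE a b θ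
/-- second coordinate on the unit circle -/
noncomputable def ss (a b θ : ℝ) : ℝ := b * Real.sin θ / hE a b θ

theorem cs_sq (hb : 0 < b) (hab : b ≤ a) (θ : ℝ) : cc a b θ ^ 2 + ss a b θ ^ 2 = 1 := by
  have h := hE_pos hb hab θ
  unfold cc ss
  rw [div_pow, div_pow, ← add_div, mul_pow, mul_pow, ← hE_sq, div_self (by positivity)]

theorem q0 (a b θ : ℝ) : qE a b θ 0 = a * cc a b θ := by
  show a ^ 2 * Real.cos θ / hE a b θ = _
  unfold cc
  ring

theorem q1 (a b θ : ℝ) : qE a b θ 1 = b * ss a b θ := by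
  show b ^ 2 * Real.sin θ / hE a b θ = _
  unfold ss
  ring

theorem ext2 {x y : E2} (h0 : x 0 = y 0) (h1 : x 1 = y 1) : x = y := by
  ext i
  fin_cases i
  · exact h0
  · exact h1

/-- cross product on the unit circle -/
theorem cross (hb : 0 < b) (hab : b ≤ a) (θ θ' : ℝ) :
    cc a b θ * ss a b θ' - ss a b θ * cc a b θ' =
      a * b / (hE a b θ * hE a b θ') * Real.sin (θ' - θ) := by
  have h := hE_pos hb hab θ
  have h' := hE_pos hb hab θ'
  unfold cc ss
  rw [Real.sin_sub]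
  field_simp

theorem cross_pos (hb : 0 < b) (hab : b ≤ a) {θ θ' : ℝ} (h : 0 < Real.sin (θ' - θ)) :
    0 < cc a b θ * ss a b θ' - ss a b θ * cc a b θ' := by
  rw [cross hb hab]
  have ha : 0 < a := hb.trans_le hab
  have h1 := hE_pos hb hab θ
  have h2 := hE_pos hb hab θ'
  positivity

/-- the orientation of three points of the unit circle -/
theorem orient {C S C₁ S₁ C₂ S₂ : ℝ} (h : C ^ 2 + S ^ 2 = 1) (h₁ : C₁ ^ 2 + S₁ ^ 2 = 1)
    (h₂ : C₂ ^ 2 + S₂ ^ 2 = 1) (hA : 0 < C₁ * S - S₁ * C) (hB : 0 < C * S₂ - S * C₂) :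
    0 < (C₁ * S - S₁ * C) + (C * S₂ - S * C₂) + (C₂ * S₁ - S₂ * C₁) := by
  have e : (C₁ * S - S₁ * C) + (C * S₂ - S * C₂) + (C₂ * S₁ - S₂ * C₁) =
      (C₁ * S - S₁ * C) * (1 - (C * C₂ + S * S₂)) + (C * S₂ - S * C₂) * (1 - (C₁ * C + S₁ * S)) +
        (C₂ * S₁ - S₂ * C₁) * (1 - (C ^ 2 + S ^ 2)) := by
    ring
  rw [e, h, sub_self, mul_zero, add_zero]
  have h3 : C₁ * C + S₁ * S < 1 := by
    have h4 : 0 < (C₁ * S - S₁ * C) ^ 2 := by positivity
    have h5 : (C₁ * C + S₁ * S) ^ 2 + (C₁ * S - S₁ * C) ^ 2 = 1 := by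
      have : (C₁ * C + S₁ * S) ^ 2 + (C₁ * S - S₁ * C) ^ 2 =
        (C₁ ^ 2 + S₁ ^ 2) * (C ^ 2 + S ^ 2) := by ring
      rw [this, h, h₁, one_mul]
    nlinarith
  have h6 : C * C₂ + S * S₂ ≤ 1 := by
    nlinarith [sq_nonneg (C - C₂), sq_nonneg (S - S₂)]
  have h7 := mul_nonneg hA.le (sub_nonneg.2 h6)
  have h8 := mul_pos hB (sub_pos.2 h3)
  linarith

theorem orient_q (hb : 0 < b) (hab : b ≤ a) {θ₁ θ₂ θ : ℝ} (h1 : θ₁ < θ) (h2 : θ < θ₂)
    (h3 : θ₂ < θ₁ + 2 * Real.pi) :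
    0 < (qE a b θ 0 - qE a b θ₁ 0) * (qE a b θ₂ 1 - qE a b θ₁ 1) -
      (qE a b θ 1 - qE a b θ₁ 1) * (qE a b θ₂ 0 - qE a b θ₁ 0) := by
  have ha : 0 < a := hb.trans_le hab
  have c0 := cs_sq hb hab θ
  have c1 := cs_sq hb hab θ₁
  have c2 := cs_sq hb hab θ₂
  have key : 0 < (cc a b θ₁ * ss a b θ - ss a b θ₁ * cc a b θ) +
      (cc a b θ * ss a b θ₂ - ss a b θ * cc a b θ₂) +
      (cc a b θ₂ * ss a b θ₁ - ss a b θ₂ * cc a b θ₁) := by
    have hD : θ - θ₁ ≥ Real.pi ∨ θ₂ - θ ≥ Real.pi →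
        0 < cc a b θ₂ * ss a b θ₁ - ss a b θ₂ * cc a b θ₁ := by
      intro h
      refine cross_pos hb hab ?_
      have e : Real.sin (θ₁ - θ₂) = Real.sin (θ₁ - θ₂ + 2 * Real.pi) := (Real.sin_add_two_pi _).symm
      rw [e]
      apply Real.sin_pos_of_pos_of_lt_pi
      · linarith
      · rcases h with h | h <;> linarith
    by_cases hα : θ - θ₁ < Real.pi
    · have hA : 0 < cc a b θ₁ * ss a b θ - ss a b θ₁ * cc a b θ :=
        cross_pos hb hab (Real.sin_pos_of_pos_of_lt_pi (by linarith) hα)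
      by_cases hβ : θ₂ - θ < Real.pi
      · have hB : 0 < cc a b θ * ss a b θ₂ - ss a b θ * cc a b θ₂ :=
          cross_pos hb hab (Real.sin_pos_of_pos_of_lt_pi (by linarith) hβ)
        exact orient c0 c1 c2 hA hB
      · have := orient c1 c2 c0 (hD (Or.inr (not_lt.1 hβ))) hA
        linarith
    · have hB : 0 < cc a b θ * ss a b θ₂ - ss a b θ * cc a b θ₂ :=
        cross_pos hb hab (Real.sin_pos_of_pos_of_lt_pi (by linarith) (by linarith [not_lt.1 hα]))
      have := orient c2 c0 c1 hB (hD (Or.inl (not_lt.1 hα)))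
      linarith
  have hab0 : 0 < a * b := mul_pos ha hb
  have e : (qE a b θ 0 - qE a b θ₁ 0) * (qE a b θ₂ 1 - qE a b θ₁ 1) -
      (qE a b θ 1 - qE a b θ₁ 1) * (qE a b θ₂ 0 - qE a b θ₁ 0) =
      a * b * ((cc a b θ₁ * ss a b θ - ss a b θ₁ * cc a b θ) +
      (cc a b θ * ss a b θ₂ - ss a b θ * cc a b θ₂) +
      (cc a b θ₂ * ss a b θ₁ - ss a b θ₂ * cc a b θ₁)) := by
    rw [q0, q0, q0, q1, q1, q1]
    ring
  rw [e]
  exact mul_pos hab0 key

end

theorem t_QQ : S_QQ := by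
  intro a b hb hab
  have ha : 0 < a := hb.trans_le hab
  have hcs := cs_sq hb hab
  have hp := hE_pos hb hab
  refine ⟨fun θ => ?_, fun θ => ?_, ?_, fun θ => ?_, fun θ x hx hle => ?_, fun x hx => ?_,
    fun θ θ' h => ?_, fun θ₁ θ₂ θ h1 h2 h3 => orient_q hb hab h1 h2 h3,
    fun θ₁ θ₂ θ h1 h2 h3 => ?_⟩
  · show (qE a b θ 0 / a) ^ 2 + (qE a b θ 1 / b) ^ 2 = 1
    rw [q0, q1, mul_div_cancel_left₀ _ ha.ne', mul_div_cancel_left₀ _ hb.ne']
    exact hcs θ
  · show qE a b θ 0 * Real.cos θ + qE a b θ 1 * Real.sin θ = hE a b θ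
    rw [q0, q1]
    unfold cc ss
    have h := hE_sq a b θ
    have h' := (hp θ).ne'
    field_simp
    linarith
  · have hc : Continuous (hE a b) := by
      unfold hE
      fun_prop
    unfold qE pt
    have h : Continuous fun θ : ℝ => (![a ^ 2 * Real.cos θ / hE a b θ,
        b ^ 2 * Real.sin θ / hE a b θ] : Fin 2 → ℝ) := by
      refine continuous_pi fun i => ?_
      fin_cases i
      · exact (continuous_const.mul Real.continuous_cos).div hc fun θ => (hp θ).ne'
      · exact (continuous_const.mul Real.continuous_sin).div hc fun θ => (hp θ).ne'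
    exact (PiLp.continuous_toLp 2 _).comp h
  · unfold qE hE
    rw [Real.cos_add_two_pi, Real.sin_add_two_pi]
  · have hX : (x 0 / a) ^ 2 + (x 1 / b) ^ 2 ≤ 1 := hx
    obtain ⟨X, hXd⟩ : ∃ X, X = x 0 / a := ⟨_, rfl⟩
    obtain ⟨Y, hYd⟩ : ∃ Y, Y = x 1 / b := ⟨_, rfl⟩
    have x0 : x 0 = a * X := by rw [hXd]; field_simp
    have x1 : x 1 = b * Y := by rw [hYd]; field_simp
    rw [← hXd, ← hYd] at hX
    have hip : ip x θ = hE a b θ * (X * cc a b θ + Y * ss a b θ) := by
      have h' := (hp θ).ne'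
      unfold ip cc ss
      rw [x0, x1]
      field_simp
    rw [hip] at hle
    have h1 : 1 ≤ X * cc a b θ + Y * ss a b θ := by
      by_contra h
      push Not at h
      have := mul_lt_mul_of_pos_left h (hp θ)
      linarith
    have h2 := hcs θ
    have h3 : (X - cc a b θ) ^ 2 + (Y - ss a b θ) ^ 2 ≤ 0 := by nlinarith
    have h4 : X - cc a b θ = 0 := by
      have := sq_nonneg (Y - ss a b θ)
      have h5 : (X - cc a b θ) ^ 2 ≤ 0 := by linarith
      exact pow_eq_zero_iff (two_ne_zero) |>.1 (le_antisymm h5 (sq_nonneg _))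
    have h6 : Y - ss a b θ = 0 := by
      have := sq_nonneg (X - cc a b θ)
      have h5 : (Y - ss a b θ) ^ 2 ≤ 0 := by linarith
      exact pow_eq_zero_iff (two_ne_zero) |>.1 (le_antisymm h5 (sq_nonneg _))
    apply ext2
    · rw [q0, x0]
      congr 1
      linarith
    · rw [q1, x1]
      congr 1
      linarith
  · have hX : (x 0 / a) ^ 2 + (x 1 / b) ^ 2 = 1 := hx
    obtain ⟨X, hXd⟩ : ∃ X, X = x 0 / a := ⟨_, rfl⟩
    obtain ⟨Y, hYd⟩ : ∃ Y, Y = x 1 / b := ⟨_, rfl⟩
    have x0 : x 0 = a * X := by rw [hXd]; field_simp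
    have x1 : x 1 = b * Y := by rw [hYd]; field_simp
    rw [← hXd, ← hYd] at hX
    have hv : pt (X / a) (Y / b) ≠ 0 := by
      intro h
      have e0 : (pt (X / a) (Y / b)) 0 = 0 := by rw [h]; rfl
      have e1 : (pt (X / a) (Y / b)) 1 = 0 := by rw [h]; rfl
      rw [pt_zero, div_eq_zero_iff] at e0
      rw [pt_one, div_eq_zero_iff] at e1
      have f0 : X = 0 := e0.resolve_right ha.ne'
      have f1 : Y = 0 := e1.resolve_right hb.ne'
      rw [f0, f1] at hX
      norm_num at hX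
    obtain ⟨θ, hθ⟩ := exists_pos_ev _ hv
    obtain ⟨ρ, hρ⟩ : ∃ ρ, ρ = ‖pt (X / a) (Y / b)‖ := ⟨_, rfl⟩
    have hρ0 : 0 < ρ := by rw [hρ]; exact norm_pos_iff.2 hv
    rw [← hρ] at hθ
    have e0 : X / a = ρ * Real.cos θ := by
      have := congrArg (fun v : E2 => v 0) hθ
      exact this
    have e1 : Y / b = ρ * Real.sin θ := by
      have := congrArg (fun v : E2 => v 1) hθ
      exact this
    have g0 : X = ρ * (a * Real.cos θ) := by
      rw [div_eq_iff ha.ne'] at e0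
      rw [e0]
      ring
    have g1 : Y = ρ * (b * Real.sin θ) := by
      rw [div_eq_iff hb.ne'] at e1
      rw [e1]
      ring
    have hh : ρ * hE a b θ = 1 := by
      have h1 : (ρ * hE a b θ) ^ 2 = 1 := by
        rw [mul_pow, hE_sq, ← hX, g0, g1]
        ring
      have h2 : 0 < ρ * hE a b θ := mul_pos hρ0 (hp θ)
      nlinarith
    have hρh : ρ = 1 / hE a b θ := by
      rw [eq_div_iff (hp θ).ne']
      exact hh
    refine ⟨θ, ext2 ?_ ?_⟩
    · rw [q0, x0, g0, hρh]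
      unfold cc
      ring
    · rw [q1, x1, g1, hρh]
      unfold ss
      ring
  · have e0 := congrArg (fun v : E2 => v 0) h
    have e1 := congrArg (fun v : E2 => v 1) h
    simp only [q0, q1] at e0 e1
    have f0 : Real.cos θ / hE a b θ = Real.cos θ' / hE a b θ' := by
      have := mul_left_cancel₀ ha.ne' e0
      unfold cc at this
      rw [mul_div_assoc, mul_div_assoc] at this
      exact mul_left_cancel₀ ha.ne' this
    have f1 : Real.sin θ / hE a b θ = Real.sin θ' / hE a b θ' := by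
      have := mul_left_cancel₀ hb.ne' e1
      unfold ss at this
      rw [mul_div_assoc, mul_div_assoc] at this
      exact mul_left_cancel₀ hb.ne' this
    have hh : hE a b θ = hE a b θ' := by
      have h1 : (1 / hE a b θ) ^ 2 = (1 / hE a b θ') ^ 2 := by
        have g1 : (Real.cos θ / hE a b θ) ^ 2 + (Real.sin θ / hE a b θ) ^ 2 =
            (1 / hE a b θ) ^ 2 := by
          rw [div_pow, div_pow, div_pow, ← add_div, Real.cos_sq_add_sin_sq, one_pow]
        have g2 : (Real.cos θ' / hE a b θ') ^ 2 + (Real.sin θ' / hE a b θ') ^ 2 =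
            (1 / hE a b θ') ^ 2 := by
          rw [div_pow, div_pow, div_pow, ← add_div, Real.cos_sq_add_sin_sq, one_pow]
        rw [← g1, ← g2, f0, f1]
      have h2 : 1 / hE a b θ = 1 / hE a b θ' := by
        have p1 : 0 < 1 / hE a b θ := by have := hp θ; positivity
        have p2 : 0 < 1 / hE a b θ' := by have := hp θ'; positivity
        exact (pow_left_inj₀ p1.le p2.le two_ne_zero).1 h1
      rw [one_div, one_div] at h2
      exact inv_injective h2
    rw [hh] at f0 f1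
    have hne := (hp θ').ne'
    have g0 : Real.cos θ' = Real.cos θ := ((div_left_inj' hne).1 f0).symm
    have g1 : Real.sin θ' = Real.sin θ := ((div_left_inj' hne).1 f1).symm
    have hang := Real.Angle.cos_sin_inj g0 g1
    obtain ⟨k, hk⟩ := Real.Angle.angle_eq_iff_two_pi_dvd_sub.1 hang
    exact ⟨k, by linarith⟩
  · have := orient_q hb hab h1 h2 h3
    linarith

end Pool.Agent.H767.EL
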